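import Mathlib
import Pool.Agent.Helper19.SubspaceDefs
import Pool.Agent.Helper19.SubspaceLower
import Pool.Agent.Helper19.SubspaceColour
import Pool.Agent.Helper19.SubspaceExists

namespace Pool.Agent.Results.MP_b5ddc9_co.TwoColour

open Pool.Agent.Helper19.Subspace

theorem result : ∀ r d : ℕ, 2 ≤ r → 2 ≤ d →
    2 * (d : ℝ) - 4 * Real.logb 2 d - 13 ≤ (R r d : ℝ) := by
  intro r d hr hd
  by_contra hcon
  push Not at hcon
  have hne : {n : ℕ | RamseyProp r d n}.Nonempty := exists_ramsey r d (by omega) hd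
  have hmem : RamseyProp r d (R r d) := Nat.sInf_mem hne
  obtain ⟨n, hn⟩ : ∃ n, n = R r d := ⟨_, rfl⟩
  rw [← hn] at hcon hmem
  refine not_ramsey (n := n) hr hd ?_ hmem
  have hd2 : (2 : ℝ) ≤ d := by exact_mod_cast hd
  have hdpos : (0 : ℝ) < d := by linarith
  have hlog : 0 ≤ Real.logb 2 d := Real.logb_nonneg (by norm_num) (by linarith)
  -- n ≤ 2 d
  have hn2 : n ≤ 2 * d := by
    have : (n : ℝ) ≤ 2 * d := by linarith
    exact_mod_cast this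
  have h1 : (n : ℝ) * d + 2 ≤ 5 / 2 * (d : ℝ) ^ 2 := by
    have : (n : ℝ) ≤ 2 * d := by exact_mod_cast hn2
    nlinarith
  -- 2^((n+1)/2) * (64 d^2) ≤ 2^d
  have h2 : (2 : ℝ) ^ ((n + 1) / 2) * (64 * (d : ℝ) ^ 2) ≤ 2 ^ d := by
    have e1 : ((2 : ℝ) ^ ((n + 1) / 2)) = (2 : ℝ) ^ ((((n + 1) / 2 : ℕ) : ℝ)) := by
      rw [Real.rpow_natCast]
    have e2 : (64 : ℝ) * (d : ℝ) ^ 2 = (2 : ℝ) ^ (6 + 2 * Real.logb 2 d) := by
      rw [Real.rpow_add (by norm_num), mul_comm 2 (Real.logb 2 d), Real.rpow_mul (by norm_num),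
        Real.rpow_logb (by norm_num) (by norm_num) hdpos]
      norm_num
    have e3 : ((2 : ℝ) ^ d) = (2 : ℝ) ^ (d : ℝ) := by
      rw [Real.rpow_natCast]
    rw [e1, e2, e3, ← Real.rpow_add (by norm_num)]
    apply Real.rpow_le_rpow_of_exponent_le (by norm_num)
    have h3 : ((((n + 1) / 2 : ℕ)) : ℝ) ≤ ((n : ℝ) + 1) / 2 := by
      have := @Nat.cast_div_le ℝ _ _ _ (n + 1) 2
      push_cast at this
      linarith
    linarith
  have h4 : (20 : ℝ) * 2 ^ ((n + 1) / 2) * ((n : ℝ) * d + 2) ≤ 2 ^ d := by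
    calc (20 : ℝ) * 2 ^ ((n + 1) / 2) * ((n : ℝ) * d + 2)
        ≤ 20 * 2 ^ ((n + 1) / 2) * (5 / 2 * (d : ℝ) ^ 2) := by gcongr
      _ = 2 ^ ((n + 1) / 2) * (50 * (d : ℝ) ^ 2) := by ring
      _ ≤ 2 ^ ((n + 1) / 2) * (64 * (d : ℝ) ^ 2) := by gcongr; norm_num
      _ ≤ _ := h2
  exact_mod_cast h4

end Pool.Agent.Results.MP_b5ddc9_co.TwoColour
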